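import Pool.Agent.U195.IR.Irr
import Pool.Agent.Results.MP_3554b5_lc.UnramifiedNorms
import Pool.Agent.Y562.NN.FF3

set_option autoImplicit false

/-!
Fields which are NIP, or `NIP_n` for some `n`, or NTP2: few places whose value group is not
`d`-divisible and whose residue field has an irreducible polynomial of degree `d`, possibly
inseparable. Function fields over imperfect fields.
-/

namespace Pool.Agent.U195.IR

open Polynomial IsLocalRing Pool.Agent.W882.Nip3 Pool.Agent.TH686.NF NNReal
open Pool.Agent.Results.MP_3554b5_lc.UnramifiedNorms Pool.Agent.Y562.NN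

/-- there is an irreducible polynomial of degree `d` over `k` -/
def HasIrr (k : Type) [Field k] (d : ℕ) : Prop := ∃ h : k[X], Irreducible h ∧ h.natDegree = d

/-- The place is tame up to `D`, also with respect to inseparable extensions: for all `d ≤ D` the value
group is `d`-divisible or there is no irreducible polynomial of degree `d` over the residue field, and
for all prime numbers `d ≤ D` different from the characteristic of `κ` the value group is cyclic modulo
`d`-th powers. -/
def IrrTame {K : Type} [Field K] (P : ValuedPlace K) (D : ℕ) : Prop :=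
  ∀ d, 1 ≤ d → d ≤ D → (P.Divisible d ∨ ¬ HasIrr (ResidueField P.v.valuationSubring) d) ∧
    (d.Prime → (d : P.κ) ≠ 0 → P.CyclicMod d)

theorem exists_gt {K : Type} [Field K] (P : ValuedPlace K) {D : ℕ}
    (h : ¬ IrrTame P D) : ∃ a, 1 < P.v a := by
  by_contra hcon
  push Not at hcon
  have h1 : ∀ a : P.κ, a ≠ 0 → P.v a = 1 := by
    intro a ha
    refine le_antisymm (hcon a) ?_
    have h2 := hcon a⁻¹
    rw [map_inv₀] at h2
    exact (inv_le_one₀ (pos_iff_ne_zero.2 ((Valuation.ne_zero_iff _).2 ha))).1 h2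
  have h2 : ∀ d, 1 ≤ d → ∀ a : P.κ, ∃ c : P.κ, P.v a = P.v c ^ d := by
    intro d hd a
    by_cases ha : a = 0
    · refine ⟨0, ?_⟩
      rw [ha, map_zero, zero_pow (by omega)]
    · refine ⟨1, ?_⟩
      rw [h1 a ha, map_one, one_pow]
  apply h
  intro d hd _
  refine ⟨Or.inl (h2 d hd), fun _ _ => ⟨1, one_ne_zero, fun b => ?_⟩⟩
  obtain ⟨c, hc⟩ := h2 d hd b
  exact ⟨c, 0, by rw [pow_zero, mul_one]; exact hc⟩

theorem not_dimLe_place {K : Type} [Field K] (P : ValuedPlace K) {D : ℕ}
    (h : ¬ IrrTame P D) : ¬ DimLeOneUpTo (Cp P.v) D := by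
  have hgt := exists_gt P h
  unfold IrrTame at h
  push Not at h
  obtain ⟨d, hd1, hdD, hd⟩ := h
  by_cases h1 : P.Divisible d ∨ ¬ HasIrr (ResidueField P.v.valuationSubring) d
  · obtain ⟨h2, h3, h4⟩ := hd h1
    exact not_dimLe_compl_ram P.v hgt h2 h3 h4 hdD
  · push Not at h1
    obtain ⟨g, hg, hgd⟩ := h1.2
    obtain ⟨a, ha⟩ : ∃ a, ∀ c, P.v a ≠ P.v c ^ d := by
      have h2 := h1.1
      unfold ValuedPlace.Divisible at h2
      push Not at h2
      exact h2
    exact not_dimLe_irr P.v hgt ha g hg hgd hdD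

theorem bound (K : Type) [Field K] [FirstOrder.Ring.CompatibleRing K]
    (hK : NIPField K ∨ (∃ n, NIPnField n K) ∨ NTP2Field K) (D : ℕ) :
    ∃ N : ℕ, ∀ (K' : Type) [Field K'] [FirstOrder.Ring.CompatibleRing K'],
      FirstOrder.Language.ring.ElementarilyEquivalent K K' →
      ∀ P : Fin N → ValuedPlace K', (Pairwise fun i j => (P i).Incomparable (P j)) →
        ∃ i, IrrTame (P i) D := by
  obtain ⟨N, hN⟩ := main_general (fun e d => boundedG_of_tame hK e d) D
  refine ⟨N, fun K' _ _ hKK' P hP => ?_⟩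
  by_contra hcon
  push Not at hcon
  have hgt : ∀ i, ∃ a, 1 < (P i).v a := fun i => exists_gt (P i) (hcon i)
  obtain ⟨i, hi⟩ := hN K' hKK' (fun i => toPlace (P i) (hgt i)) (by
    intro i j hij
    obtain ⟨x, hx0, ⟨h1, h2⟩, h3, h4⟩ := hP hij
    refine ⟨x, hx0, ⟨h1, ?_⟩, ⟨h3, ?_⟩⟩
    · change ‖emb (P i).v ((P i).π ⟨x, h1⟩)‖ < 1
      rw [norm_emb]
      exact_mod_cast h2
    · change ‖emb (P j).v ((P j).π ⟨x⁻¹, h3⟩)‖ < 1
      rw [norm_emb]
      exact_mod_cast h4)
  exact not_dimLe_place (P i) (hcon i) hi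

theorem bound_residue (D N : ℕ) (K : Type) [Field K]
    (hN : ∀ P : Fin N → ValuedPlace K, (Pairwise fun i j => (P i).Incomparable (P j)) →
        ∃ i, IrrTame (P i) D)
    (O : ValuationSubring K) (k : Type) [Field k] (π : O →+* k) (hπ : Function.Surjective π)
    (v : Fin N → Valuation k ℝ≥0) (hv : Pairwise fun i j => ∃ x, v i x < 1 ∧ 1 < v j x) :
    ∃ i, IrrTame (ofValuation (v i)) D := by
  obtain ⟨i, hi⟩ := hN (fun i => ⟨O, k, inferInstance, π, hπ, v i⟩) (by
    intro i j hij
    obtain ⟨x, h1, h2⟩ := hv hij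
    obtain ⟨y, rfl⟩ := hπ x
    have h0 : π y ≠ 0 := by
      intro h
      rw [h, map_zero] at h2
      exact absurd h2 (by simp)
    have h3 := isUnit_of_ne O π hπ y h0
    obtain ⟨u, rfl⟩ := h3
    have h5 : (((u⁻¹ : Oˣ) : O) : K) = ((u : O) : K)⁻¹ := by
      refine eq_inv_of_mul_eq_one_left ?_
      have h6 : ((u⁻¹ : Oˣ) : O) * (u : O) = 1 := Units.inv_mul u
      exact congrArg Subtype.val h6
    have h6 : π ((u⁻¹ : Oˣ) : O) = (π (u : O))⁻¹ := by
      refine eq_inv_of_mul_eq_one_left ?_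
      rw [← map_mul, Units.inv_mul, map_one]
    refine ⟨((u : O) : K), ?_, ⟨(u : O).2, h1⟩, ?_⟩
    · intro h
      apply h0
      have h7 : (u : O) = 0 := Subtype.ext h
      rw [h7, map_zero]
    · refine ⟨?_, ?_⟩
      · rw [← h5]
        exact ((u⁻¹ : Oˣ) : O).2
      · have h7 : (⟨((u : O) : K)⁻¹, by rw [← h5]; exact ((u⁻¹ : Oˣ) : O).2⟩ : O) =
            ((u⁻¹ : Oˣ) : O) := Subtype.ext h5.symm
        change v j (π _) < 1
        rw [h7, h6, map_inv₀]
        exact inv_lt_one_of_one_lt₀ h2)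
  exact ⟨i, hi⟩

/-- The core of the argument. -/
theorem core_irr (D N : ℕ) (K : Type) [Field K]
    (hN : ∀ v : Fin N → Valuation K ℝ≥0, (Pairwise fun i j => ∃ x, v i x < 1 ∧ 1 < v j x) →
        ∃ i, IrrTame (ofValuation (v i)) D)
    (B : Type) [CommRing B] (g : B →+* K) (P : Fin N → Ideal B)
    (hne : ∀ i j, i ≠ j → ¬ P i ≤ P j) (V : Fin N → ValuationSubring K)
    (hV : ∀ i, IsDiscreteValuationRing (V i)) (hV1 : ∀ i, ∀ b ∈ P i, (V i).valuation (g b) < 1)
    (hV2 : ∀ i, ∀ b, b ∉ P i → (V i).valuation (g b) = 1)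
    (hext : ∀ i, ∃ d, 2 ≤ d ∧ d ≤ D ∧ HasIrr (ResidueField (V i)) d) : False := by
  have h4 := fun i => exists_real (V i) (hV i)
  choose v hv using h4
  have hlt : ∀ i x, (V i).valuation x < 1 ↔ v i x < 1 := by
    intro i x
    rw [hv i]
    exact ((v i).isEquiv_valuation_valuationSubring.lt_one_iff_lt_one).symm
  have heq : ∀ i x, (V i).valuation x = 1 ↔ v i x = 1 := by
    intro i x
    rw [hv i]
    exact ((v i).isEquiv_valuation_valuationSubring.eq_one_iff_eq_one).symm
  have hinc : Pairwise fun i j => ∃ x, v i x < 1 ∧ 1 < v j x := by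
    intro i j hij
    obtain ⟨a, ha, ha'⟩ := SetLike.not_le_iff_exists.1 (hne i j hij)
    obtain ⟨b, hb, hb'⟩ := SetLike.not_le_iff_exists.1 (hne j i hij.symm)
    have h5 := (hlt i _).1 (hV1 i a ha)
    have h6 := (heq i _).1 (hV2 i b hb')
    have h7 := (heq j _).1 (hV2 j a ha')
    have h8 := (hlt j _).1 (hV1 j b hb)
    have hb0 : g b ≠ 0 := by
      intro h
      rw [h, map_zero] at h6
      exact zero_ne_one h6
    refine ⟨g a / g b, ?_, ?_⟩
    · rw [map_div₀, h6, div_one]
      exact h5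
    · rw [map_div₀, h7, one_div]
      exact (one_lt_inv₀ (pos_iff_ne_zero.2 ((Valuation.ne_zero_iff _).2 hb0))).2 h8
  obtain ⟨i, hi⟩ := hN v hinc
  have h5 : ∀ W : ValuationSubring K, V i = W → ∃ d, 2 ≤ d ∧ d ≤ D ∧ HasIrr (ResidueField W) d := by
    rintro _ rfl
    exact hext i
  obtain ⟨d, hd1, hd2, h6⟩ := h5 _ (hv i)
  have h8 : IsDiscreteValuationRing (v i).valuationSubring := by
    have h9 := hV i
    rw [hv i] at h9
    exact h9
  obtain ⟨a, ha⟩ := value_not_pow (v i) h8 hd1
  rcases (hi d (by omega) hd2).1 with h9 | h9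
  · obtain ⟨c, hc⟩ := h9 a
    exact ha c hc
  · exact h9 h6

/-- a polynomial without roots has an irreducible factor of degree at least two -/
theorem hasIrr_of_poly {k κ : Type} [Field k] [Field κ] [Algebra k κ] (f : k[X])
    (hd : 0 < f.natDegree) (hno : ∀ α : κ, aeval α f ≠ 0) :
    ∃ d, 2 ≤ d ∧ d ≤ f.natDegree ∧ HasIrr κ d := by
  have hf0 : f ≠ 0 := by
    rintro rfl
    simp at hd
  have hinj : Function.Injective (algebraMap k κ) := (algebraMap k κ).injective
  have hg0 : f.map (algebraMap k κ) ≠ 0 := (Polynomial.map_ne_zero_iff hinj).2 hf0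
  have hgd : (f.map (algebraMap k κ)).natDegree = f.natDegree := natDegree_map_eq_of_injective hinj f
  have hu : ¬ IsUnit (f.map (algebraMap k κ)) := by
    intro h
    have h1 := natDegree_eq_zero_of_isUnit h
    omega
  obtain ⟨h, hirr, hdvd⟩ := WfDvdMonoid.exists_irreducible_factor hu hg0
  have h1 : h.natDegree ≤ f.natDegree := by
    rw [← hgd]
    exact natDegree_le_of_dvd hdvd hg0
  have h2 : 2 ≤ h.natDegree := by
    have h3 := hirr.natDegree_pos
    by_contra hlt
    have h4 : h.natDegree = 1 := by omega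
    have h5 : h.degree = 1 := by
      rw [degree_eq_natDegree hirr.ne_zero, h4]
      rfl
    obtain ⟨α, hα⟩ := exists_root_of_degree_eq_one h5
    apply hno α
    rw [aeval_def, ← eval_map]
    exact hα.dvd hdvd
  exact ⟨h.natDegree, h2, h1, h, hirr, rfl⟩

/-- The case of an infinite field `k`. -/
theorem inf_irr (k F : Type) [Field k] [Infinite k] [Field F]
    (hF : ∀ D : ℕ, ∃ N : ℕ, ∀ v : Fin N → Valuation F ℝ≥0,
      (Pairwise fun i j => ∃ x, v i x < 1 ∧ 1 < v j x) → ∃ i, IrrTame (ofValuation (v i)) D)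
    [Algebra (FractionRing k[X]) F] [FiniteDimensional (FractionRing k[X]) F]
    (f : k[X]) (hirr : Irreducible f) (hdeg : Module.finrank (FractionRing k[X]) F < f.natDegree) :
    False := by
  obtain ⟨N, hN⟩ := hF f.natDegree
  let _ : Algebra k[X] F := ((algebraMap (FractionRing k[X]) F).comp
    (algebraMap k[X] (FractionRing k[X]))).toAlgebra
  have htow : IsScalarTower k[X] (FractionRing k[X]) F := IsScalarTower.of_algebraMap_eq' rfl
  let e : Fin N ↪ k := (Fin.valEmbedding).trans (Infinite.natEmbedding k)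
  let P : Fin N → Ideal k[X] := fun i => Ideal.span {X - C (e i)}
  have hmax : ∀ i, (P i).IsMaximal := fun i =>
    PrincipalIdealRing.isMaximal_of_irreducible (irreducible_X_sub_C _)
  have hp : ∀ i, (P i).IsPrime := fun i => (hmax i).isPrime
  have h0 : ∀ i, P i ≠ ⊥ := by
    intro i h
    rw [Ideal.span_singleton_eq_bot] at h
    exact X_sub_C_ne_zero _ h
  have h1 : ∀ i, (P i).height ≤ 1 := by
    intro i
    refine Ideal.height_le_one_of_isPrincipal_of_mem_minimalPrimes (P i) (P i) ?_
    rw [Ideal.minimalPrimes_eq_subsingleton_self]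
    exact Set.mem_singleton _
  have hne : ∀ i j, i ≠ j → ¬ P i ≤ P j := by
    intro i j hij h
    rw [Ideal.span_singleton_le_span_singleton] at h
    have h2 : (X - C (e i) : k[X]).eval (e j) = 0 := by
      obtain ⟨c, hc⟩ := h
      rw [hc, eval_mul]
      simp
    simp only [eval_sub, eval_X, eval_C, sub_eq_zero] at h2
    exact hij (e.injective h2.symm)
  have h3 := fun i => exists_dvr' k[X] (FractionRing k[X]) F (P i) (h0 i) (h1 i)
  choose V hV hV1 hV2 g hg hgm using h3
  refine core_irr f.natDegree N F hN k[X] (algebraMap k[X] F) P hne V hV hV1 hV2 fun i => ?_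
  let _ : Algebra (P i).ResidueField (ResidueField (V i)) := (g i).toAlgebra
  let _ : Algebra k (ResidueField (V i)) :=
    ((g i).comp (algebraMap k (P i).ResidueField)).toAlgebra
  have ht : IsScalarTower k (P i).ResidueField (ResidueField (V i)) :=
    IsScalarTower.of_algebraMap_eq' rfl
  -- `k` is the residue field of `P i`
  have hsurj : Function.Surjective (algebraMap k (P i).ResidueField) := by
    have hb := Ideal.bijective_algebraMap_quotient_residueField (P i)
    intro z
    obtain ⟨q, rfl⟩ := hb.2 z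
    obtain ⟨p, rfl⟩ := Ideal.Quotient.mk_surjective q
    refine ⟨p.eval (e i), ?_⟩
    rw [IsScalarTower.algebraMap_apply k k[X] (P i).ResidueField,
      IsScalarTower.algebraMap_apply k[X] (k[X] ⧸ P i) (P i).ResidueField]
    congr 1
    refine Ideal.Quotient.eq.2 ?_
    rw [Ideal.mem_span_singleton, dvd_iff_isRoot]
    simp
  refine hasIrr_of_poly f (by omega) fun α hα => ?_
  have h4 : f.natDegree = (minpoly k α).natDegree := by
    rw [← minpoly.eq_of_irreducible hirr hα, natDegree_mul_C]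
    exact inv_ne_zero (leadingCoeff_ne_zero.2 hirr.ne_zero)
  have h5 := linearIndependent_pow (K := k) α
  have h6 : LinearIndependent (P i).ResidueField
      (fun j : Fin (minpoly k α).natDegree => α ^ (j : ℕ)) := by
    rw [Fintype.linearIndependent_iff] at h5 ⊢
    intro c hc j
    choose c' hc' using fun j => hsurj (c j)
    have h7 := h5 c' (by
      rw [← hc]
      refine Finset.sum_congr rfl fun j _ => ?_
      rw [← hc', algebraMap_smul]) j
    rw [← hc', h7, map_zero]
  have h7 := finrank_residue_le k[X] (FractionRing k[X]) F (P i)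
    (dedekind_val k[X] (FractionRing k[X]) (P i) (h0 i)) (V i) (hV1 i) (hV2 i) (g i) (hgm i) _ _ h6
  omega

end Pool.Agent.U195.IR
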