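import Pool.Agent.TH686.NF.Compl

set_option autoImplicit false

/-!
Valuations whose residue field has an irreducible polynomial (possibly inseparable) of degree `d`,
and whose value group is not `d`-divisible: the completion has dimension greater than one.
-/

namespace Pool.Agent.U195.IR

open Polynomial Pool.Agent.W882.Nip3 Pool.Agent.TH686.NF NNReal

section general

variable {Γ₀ : Type*} [LinearOrderedCommGroupWithZero Γ₀]

theorem not_dimLe_of_sep {F : Type} [Field F] (v : Valuation F Γ₀) (g : v.valuationSubring[X])
    (hg : g.Monic) (hirr : Irreducible (g.map (IsLocalRing.residue v.valuationSubring)))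
    (hsep : (g.map (algebraMap v.valuationSubring F)).Separable) {a : F} (ha : a ≠ 0)
    (hdiv : ∀ c, v a ≠ v c ^ g.natDegree) {D : ℕ} (hD1 : 1 ≤ D) (hD : g.natDegree ≤ D) :
    ¬ DimLeOneUpTo F D := by
  intro H
  obtain ⟨G, hG⟩ : ∃ G, G = g.map (algebraMap v.valuationSubring F) := ⟨_, rfl⟩
  have hGi : Irreducible G := by rw [hG]; exact irred_G v g hg hirr
  have hGs : G.Separable := by rw [hG]; exact hsep
  have hGm : G.Monic := by rw [hG]; exact hg.map _
  have hGd : G.natDegree = g.natDegree := by rw [hG]; exact hg.natDegree_map _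
  let _ : Fact (Irreducible G) := ⟨hGi⟩
  have h1 : FiniteDimensional F (AdjoinRoot G) := hGm.finite_adjoinRoot
  have h2 : Algebra.IsSeparable F (AdjoinRoot G) := isSeparable_adjoinRoot hGi hGs
  have h3 : Module.finrank F (AdjoinRoot G) ≤ D := by
    rw [Module.finrank_eq_card_basis (AdjoinRoot.powerBasisAux' hGm), Fintype.card_fin, hGd]
    exact hD
  have h4 := H F inferInstance inferInstance (by rw [Module.finrank_self]; exact hD1)
    (AdjoinRoot G) h1 h2 h3
  obtain ⟨z, hz⟩ := h4 a
  have hz0 : z ≠ 0 := by
    intro h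
    apply ha
    rw [← hz, h, Algebra.norm_zero]
  obtain ⟨c, -, hc⟩ := val_norm v g hg hirr G hG z hz0
  rw [hz] at hc
  exact hdiv c hc

/-- an irreducible reduction can be lifted to a separable polynomial -/
theorem not_dimLe_irr' {F : Type} [Field F] (v : Valuation F Γ₀) (g : v.valuationSubring[X])
    (hg : g.Monic) (hirr : Irreducible (g.map (IsLocalRing.residue v.valuationSubring)))
    {t : v.valuationSubring} (ht0 : t ≠ 0) (ht : IsLocalRing.residue v.valuationSubring t = 0)
    {a : F} (ha : a ≠ 0)
    (hdiv : ∀ c, v a ≠ v c ^ g.natDegree) {D : ℕ} (hD : g.natDegree ≤ D) :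
    ¬ DimLeOneUpTo F D := by
  have hd0 : g.natDegree ≠ 0 := by
    intro h
    have h1 : g = 1 := hg.natDegree_eq_zero.1 h
    rw [h1, Polynomial.map_one] at hirr
    exact hirr.not_isUnit isUnit_one
  have hd1 : g.natDegree ≠ 1 := by
    intro h
    apply hdiv a
    rw [h, pow_one]
  by_cases hder : derivative (g.map (algebraMap v.valuationSubring F)) = 0
  · have hlt : (C t * X : v.valuationSubring[X]).natDegree < g.natDegree := by
      have := (natDegree_C_mul_le t (X : v.valuationSubring[X])).trans natDegree_X_le
      omega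
    have hlt' : (C t * X : v.valuationSubring[X]).degree < g.degree :=
      degree_lt_degree hlt
    have hg' : (g + C t * X).Monic := hg.add_of_left hlt'
    have hn : (g + C t * X).natDegree = g.natDegree := natDegree_add_eq_left_of_natDegree_lt hlt
    have hr : (g + C t * X).map (IsLocalRing.residue v.valuationSubring) =
        g.map (IsLocalRing.residue v.valuationSubring) := by
      rw [Polynomial.map_add, Polynomial.map_mul, map_C, ht, map_zero, zero_mul, add_zero]
    have hirr' : Irreducible ((g + C t * X).map (IsLocalRing.residue v.valuationSubring)) := by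
      rw [hr]
      exact hirr
    refine not_dimLe_of_sep v (g + C t * X) hg' hirr' ?_ ha (by rw [hn]; exact hdiv) (by omega)
      (by rw [hn]; exact hD)
    rw [separable_iff_derivative_ne_zero (irred_G v _ hg' hirr')]
    rw [Polynomial.map_add, derivative_add, hder, zero_add, Polynomial.map_mul, map_C, map_X,
      derivative_C_mul, derivative_X, mul_one]
    intro h
    rw [C_eq_zero] at h
    exact ht0 (Subtype.ext h)
  · refine not_dimLe_of_sep v g hg hirr ?_ ha hdiv (by omega) hD
    rw [separable_iff_derivative_ne_zero (irred_G v _ hg hirr)]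
    exact hder

end general

section transfer

variable {Γ₀ : Type*} [LinearOrderedCommGroupWithZero Γ₀]
  {κ F : Type*} [Field κ] [Field F] (v : Valuation κ Γ₀) (V : Valuation F Γ₀)
  (i : κ →+* F) (hi : ∀ x, V (i x) = v x)

theorem transfer_irr (hdense : ∀ y : F, y ≠ 0 → ∃ x : κ, V (y - i x) < V y)
    (f : v.valuationSubring[X]) (hirr : Irreducible (f.map (IsLocalRing.residue _))) :
    Irreducible ((f.map (jj v V i hi)).map (IsLocalRing.residue _)) := by
  have h1 : (f.map (jj v V i hi)).map (IsLocalRing.residue _) =
      (f.map (IsLocalRing.residue _)).map (IsLocalRing.ResidueField.map (jj v V i hi)) := by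
    rw [Polynomial.map_map, Polynomial.map_map]
    congr 1
  rw [h1]
  set e := RingEquiv.ofBijective _ (res_bij v V i hi hdense) with he
  have h2 : (f.map (IsLocalRing.residue _)).map (IsLocalRing.ResidueField.map (jj v V i hi)) =
      Polynomial.mapEquiv e (f.map (IsLocalRing.residue _)) := by
    rfl
  rw [h2]
  exact (MulEquiv.irreducible_iff (Polynomial.mapEquiv e)).2 hirr

end transfer

variable {κ : Type} [Field κ]

/-- the main lemma: the completion does not have dimension at most one -/
theorem not_dimLe_irr (v : Valuation κ ℝ≥0) (hgt : ∃ a, 1 < v a) {d : ℕ} {a : κ}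
    (ha : ∀ c, v a ≠ v c ^ d) (h : (IsLocalRing.ResidueField v.valuationSubring)[X])
    (hi : Irreducible h) (hdeg : h.natDegree = d) {D : ℕ} (hD : d ≤ D) :
    ¬ DimLeOneUpTo (Cp v) D := by
  wlog hm : h.Monic generalizing h
  · refine this (h * C h.leadingCoeff⁻¹) (irreducible_mul_leadingCoeff_inv.2 hi) ?_
      (monic_mul_leadingCoeff_inv hi.ne_zero)
    rw [natDegree_mul_leadingCoeff_inv _ hi.ne_zero, hdeg]
  have hd : 1 ≤ d := by
    rw [← hdeg]
    exact hi.natDegree_pos
  have hl : h ∈ lifts (IsLocalRing.residue v.valuationSubring) := by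
    rw [lifts_iff_coeff_lifts]
    intro n
    exact IsLocalRing.residue_surjective _
  obtain ⟨f, hf1, hf2, hf3⟩ := lifts_and_natDegree_eq_and_monic hl hm
  have ht := transfer_irr v (NormedField.valuation (K := Cp v)) (emb v) (val_emb v) (near v) f
    (by rw [hf1]; exact hi)
  have ha0 : a ≠ 0 := by
    rintro rfl
    apply ha 0
    rw [map_zero, zero_pow (by omega)]
  have hgd : (f.map (jj v (NormedField.valuation (K := Cp v)) (emb v) (val_emb v))).natDegree = d := by
    rw [hf3.natDegree_map, hf2, hdeg]
  obtain ⟨s, hs⟩ := hgt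
  have hs0 : s ≠ 0 := by
    rintro rfl
    rw [map_zero] at hs
    exact not_lt_zero hs
  have hs1 : v s⁻¹ < 1 := by
    rw [map_inv₀]
    exact inv_lt_one_of_one_lt₀ hs
  refine not_dimLe_irr' (NormedField.valuation (K := Cp v)) _ (hf3.map _) ht
    (t := ⟨emb v s⁻¹, by
      change NormedField.valuation (emb v s⁻¹) ≤ 1
      rw [val_emb]
      exact hs1.le⟩) ?_ ?_
    (a := emb v a) (by rwa [Ne, map_eq_zero]) ?_ (by rw [hgd]; exact hD)
  · intro h0
    have h1 := congrArg Subtype.val h0
    have h2 : emb v s⁻¹ = 0 := h1
    rw [map_eq_zero] at h2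
    exact inv_ne_zero hs0 h2
  · rw [IsLocalRing.residue_eq_zero_iff, IsLocalRing.mem_maximalIdeal]
    intro hu
    rw [Pool.Agent.TH686.NF.isUnit_iff] at hu
    change NormedField.valuation (emb v s⁻¹) = 1 at hu
    rw [val_emb] at hu
    exact hs1.ne hu
  · intro c hc
    rw [hgd, val_emb] at hc
    by_cases hc0 : c = 0
    · rw [hc0, map_zero, zero_pow (by omega)] at hc
      exact ha0 (v.zero_iff.1 hc)
    · obtain ⟨x, hx⟩ := near v c hc0
      apply ha x
      rw [hc]
      congr 1
      have h1 : NormedField.valuation (emb v x) = NormedField.valuation c := by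
        have e1 : emb v x = c - (c - emb v x) := by ring
        rw [e1]
        exact Valuation.map_sub_eq_of_lt_left _ hx
      exact h1.symm.trans (val_emb v x)

end Pool.Agent.U195.IR
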