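import Pool.Agent.U195.IR.Bound

set_option autoImplicit false

/-!
Function fields over imperfect fields.
-/

namespace Pool.Agent.U195.IR

open Polynomial IsLocalRing NNReal
open Pool.Agent.Results.MP_3554b5_lc.UnramifiedNorms Pool.Agent.Y562.NN

/-- iterated `p`-th roots of elements which are not `p`-th powers have large degree -/
theorem deg_root {k E : Type} [Field k] [Field E] [Algebra k E] {p : ℕ} (hprime : p.Prime)
    [CharP k p] {b : k} (hb : ∀ c : k, c ^ p ≠ b) {n : ℕ} {α : E}
    (hα : α ^ p ^ n = algebraMap k E b) : IsIntegral k α ∧ n < (minpoly k α).natDegree := by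
  have : Fact p.Prime := ⟨hprime⟩
  have : ExpChar k p := ExpChar.prime hprime
  have hint : IsIntegral k α := by
    refine IsIntegral.of_pow (pow_pos hprime.pos n) ?_
    rw [hα]
    exact isIntegral_algebraMap
  have h1 : (minpoly k α).natSepDegree = 1 :=
    (minpoly.natSepDegree_eq_one_iff_pow_mem p).2 ⟨n, b, hα.symm⟩
  obtain ⟨m, y, hm⟩ := (minpoly.natSepDegree_eq_one_iff_eq_X_pow_sub_C p).1 h1
  have hy : α ^ p ^ m = algebraMap k _ y := by
    have h2 := minpoly.aeval k α
    rw [hm, map_sub, map_pow, aeval_X, aeval_C, sub_eq_zero] at h2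
    exact h2
  have hnm : n ≤ m := by
    by_contra hlt
    push Not at hlt
    obtain ⟨j, rfl⟩ : ∃ j, n = m + (j + 1) := ⟨n - m - 1, by omega⟩
    apply hb (y ^ p ^ j)
    apply (algebraMap k E).injective
    rw [← hα, pow_add, pow_mul, hy, ← map_pow, ← pow_mul, pow_succ]
  refine ⟨hint, ?_⟩
  rw [hm, natDegree_X_pow_sub_C]
  exact (Nat.lt_pow_self hprime.one_lt).trans_le (Nat.pow_le_pow_right hprime.pos hnm)

/-- a perfect field has no imperfect subfield of finite index -/
theorem imperfect_finite {k E : Type} [Field k] [Field E] {p : ℕ} (hprime : p.Prime)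
    [CharP k p] {b : k} (hb : ∀ c : k, c ^ p ≠ b) (f : k →+* E) (hf : f.Finite) :
    ∃ b' : E, ∀ c : E, c ^ p ≠ b' := by
  by_contra hcon
  push Not at hcon
  let _ : Algebra k E := f.toAlgebra
  have hfin : FiniteDimensional k E := hf
  have hroot : ∀ n : ℕ, ∃ α : E, α ^ p ^ n = algebraMap k E b := by
    intro n
    induction n with
    | zero => exact ⟨algebraMap k E b, by rw [pow_zero, pow_one]⟩
    | succ n ih =>
      obtain ⟨α, hα⟩ := ih
      obtain ⟨β, hβ⟩ := hcon α
      exact ⟨β, by rw [pow_succ', pow_mul, hβ, hα]⟩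
  obtain ⟨α, hα⟩ := hroot (Module.finrank k E)
  obtain ⟨h1, h2⟩ := deg_root hprime hb hα
  have h3 := minpoly.natDegree_le (A := k) α
  omega

theorem hasIrr_of_not_pow {E : Type} [Field E] {p : ℕ} (hprime : p.Prime) {b : E}
    (hb : ∀ c : E, c ^ p ≠ b) : HasIrr E p :=
  ⟨X ^ p - C b, X_pow_sub_C_irreducible_of_prime hprime hb, natDegree_X_pow_sub_C⟩

/-- imperfect fields have irreducible polynomials of large degree -/
theorem exists_irr_of_not_perfect {k : Type} [Field k] (h : ¬ PerfectField k) (n : ℕ) :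
    ∃ f : k[X], Irreducible f ∧ n < f.natDegree := by
  obtain ⟨p, hp⟩ := ExpChar.exists k
  cases hp with
  | zero => exact (h inferInstance).elim
  | prime hprime =>
    rename_i hchar
    have : Fact p.Prime := ⟨hprime⟩
    have : ExpChar k p := ExpChar.prime hprime
    obtain ⟨b, hb⟩ : ∃ b : k, ∀ c : k, c ^ p ≠ b := by
      by_contra hcon
      push Not at hcon
      have : PerfectRing k p := PerfectRing.ofSurjective k p (fun b => by
        obtain ⟨c, hc⟩ := hcon b
        exact ⟨c, by rw [frobenius_def]; exact hc⟩)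
      exact h (PerfectRing.toPerfectField k p)
    obtain ⟨α, hα⟩ := IsAlgClosed.exists_pow_nat_eq (algebraMap k (AlgebraicClosure k) b)
      (pow_pos hprime.pos n)
    obtain ⟨h1, h2⟩ := deg_root hprime hb hα
    exact ⟨minpoly k α, minpoly.irreducible h1, h2⟩

/-- Noetherian domains -/
theorem main_irr (D N : ℕ) (K : Type) [Field K]
    (hN : ∀ v : Fin N → Valuation K ℝ≥0, (Pairwise fun i j => ∃ x, v i x < 1 ∧ 1 < v j x) →
        ∃ i, IrrTame (ofValuation (v i)) D)
    (A : Type) [CommRing A] [IsDomain A] [IsNoetherianRing A] [Algebra (FractionRing A) K]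
    [FiniteDimensional (FractionRing A) K]
    (P : Fin N → Ideal A) (hinj : Function.Injective P) (hp : ∀ i, (P i).IsPrime)
    (h0 : ∀ i, P i ≠ ⊥) (h1 : ∀ i, (P i).height ≤ 1)
    (h2 : ∀ i, ∀ (κ' : Type) [Field κ'] (f : (P i).ResidueField →+* κ'), f.Finite →
      ∃ d, 2 ≤ d ∧ d ≤ D ∧ HasIrr κ' d) : False := by
  let _ : Algebra A K := ((algebraMap (FractionRing A) K).comp
    (algebraMap A (FractionRing A))).toAlgebra
  have htow : IsScalarTower A (FractionRing A) K := IsScalarTower.of_algebraMap_eq' rfl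
  have h3 := fun i => exists_dvr A (FractionRing A) K (P i) (h0 i) (h1 i)
  choose V hV hV1 hV2 f hf using h3
  exact core_irr D N K hN A (algebraMap A K) P (fun i j hij =>
    not_le_of_ne (hp i) (hp j) (h0 i) (h1 j) (fun h => hij (hinj h))) V hV hV1 hV2
    (fun i => h2 i _ (f i) (hf i))

/-- the number of imperfect residue fields of a Noetherian domain of dimension at most one -/
theorem noeth_irr (D N : ℕ) (K : Type) [Field K]
    (hN : ∀ v : Fin N → Valuation K ℝ≥0, (Pairwise fun i j => ∃ x, v i x < 1 ∧ 1 < v j x) →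
        ∃ i, IrrTame (ofValuation (v i)) D)
    (A : Type) [CommRing A] [IsDomain A] [IsNoetherianRing A] [Algebra (FractionRing A) K]
    [FiniteDimensional (FractionRing A) K] (hdim : ringKrullDim A ≤ 1) :
    {𝔪 : Ideal A | 𝔪.IsMaximal ∧ 𝔪 ≠ ⊥ ∧ ∃ p : ℕ, p.Prime ∧ p ≤ D ∧ (p : A) ∈ 𝔪 ∧
      ∃ b : A, ∀ c : A, c ^ p - b ∉ 𝔪}.encard < N := by
  by_contra hcon
  rw [not_lt] at hcon
  obtain ⟨P, hP1, hP2⟩ := exists_seq _ N hcon
  have hp : ∀ i, (P i).IsPrime := fun i => (hP2 i).1.isPrime
  rw [ringKrullDim_le_iff_height_le] at hdim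
  refine main_irr D N K hN A P hP1 hp (fun i => (hP2 i).2.1) (fun i => ?_) (fun i κ' _ f hf => ?_)
  · have h2 := hdim (hp i)
    exact_mod_cast h2
  · have hm : (P i).IsMaximal := (hP2 i).1
    obtain ⟨p, hprime, hpD, hpm, b, hb⟩ := (hP2 i).2.2
    have hbij := Ideal.bijective_algebraMap_quotient_residueField (P i)
    have hsurj : Function.Surjective (algebraMap A (P i).ResidueField) := by
      rw [IsScalarTower.algebraMap_eq A (A ⧸ P i) (P i).ResidueField]
      exact hbij.2.comp Ideal.Quotient.mk_surjective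
    have hzero : ∀ x : A, algebraMap A (P i).ResidueField x = 0 ↔ x ∈ P i := by
      intro x
      rw [IsScalarTower.algebraMap_apply A (A ⧸ P i) (P i).ResidueField,
        map_eq_zero_iff _ hbij.1]
      exact Ideal.Quotient.eq_zero_iff_mem
    have hchar : CharP (P i).ResidueField p := by
      refine (CharP.charP_iff_prime_eq_zero hprime).2 ?_
      have h3 := (hzero (p : A)).2 hpm
      rwa [map_natCast] at h3
    have hb' : ∀ c : (P i).ResidueField, c ^ p ≠ algebraMap A _ b := by
      intro c hc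
      obtain ⟨c, rfl⟩ := hsurj c
      apply hb c
      rw [← hzero, map_sub, map_pow, hc, sub_self]
    obtain ⟨b', hb''⟩ := imperfect_finite hprime hb' f hf
    exact ⟨p, hprime.two_le, hpD, hasIrr_of_not_pow hprime hb''⟩

theorem perfect_of_trdeg_one (k F : Type) [Field k] [Field F] [Algebra k F]
    (hfg : (⊤ : IntermediateField k F).FG) (htr : Algebra.trdeg k F = 1)
    (hF : ∀ D : ℕ, ∃ N : ℕ, ∀ v : Fin N → Valuation F ℝ≥0,
      (Pairwise fun i j => ∃ x, v i x < 1 ∧ 1 < v j x) → ∃ i, IrrTame (ofValuation (v i)) D) :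
    PerfectField k := by
  by_contra hcon
  have hess : Algebra.EssFiniteType k F := IntermediateField.fg_top_iff.1 hfg
  obtain ⟨s, hs⟩ := exists_finset_isTranscendenceBasis k F
  have hcard := hs.cardinalMk_eq_trdeg
  have halg := hs.isAlgebraic
  have h : s.card = 1 := by
    rw [htr] at hcard
    simpa using hcard
  obtain ⟨x, hx⟩ := Finset.card_eq_one.1 h
  subst hx
  have hrange : Set.range ((↑) : ({x} : Finset F) → F) = {x} := by
    ext y
    simp
  have hr : (aeval (R := k) x).range = Algebra.adjoin k {x} :=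
    (Algebra.adjoin_singleton_eq_range_aeval k x).symm
  have htx : Transcendental k x := by
    have h1 := hs.1
    have h2 : x ∈ ({x} : Finset F) := Finset.mem_singleton_self x
    exact h1.transcendental ⟨x, h2⟩
  have hinj : Function.Injective (aeval (R := k) x) := transcendental_iff_injective.1 htx
  have halg' : Algebra.IsAlgebraic (aeval (R := k) x).range F := by
    have key : ∀ S : Subalgebra k F, S = (aeval (R := k) x).range →
        Algebra.IsAlgebraic S F → Algebra.IsAlgebraic (aeval (R := k) x).range F := by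
      rintro _ rfl h1
      exact h1
    refine key _ ?_ halg
    rw [hr, hrange]
  obtain ⟨_, hfd, -⟩ := finite_frac (aeval (R := k) x) hinj halg'
  have hinf : Infinite k := by
    by_contra hfin
    rw [not_infinite_iff_finite] at hfin
    exact hcon inferInstance
  obtain ⟨f, hirr, hdeg⟩ := exists_irr_of_not_perfect hcon (Module.finrank (FractionRing k[X]) F)
  exact inf_irr k F hF f hirr hdeg

end Pool.Agent.U195.IR
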